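import Pool.Agent.H26.Lib.R_seed8.H126T.Main
import Pool.Agent.H26.Lib.R_seed8.H126U.Comb

/-! The `L`-functions of all cohomology groups of products of quadratic twists of hyperelliptic
curves over a number field. -/

set_option autoImplicit false

namespace Pool.Agent.H126U

open NumberField IsDedekindDomain Pool.Agent.H341R2 Pool.Agent.H341R2.EC Pool.Agent.H126T
open Pool.Agent.H921R2.TatePole (nm two_le_nm)
open Complex Filter Topology Polynomial ComplexConjugate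

set_option linter.unusedSectionVars false

variable {K : Type} [Field K] [NumberField K]

/-- trace of `Frob^m` on `Hⁱ` of the product of the curves `d j y² = f j (x)`, by the Künneth
formula -/
noncomputable def traceH (i : ℕ) {r : ℕ} (v : HeightOneSpectrum (𝓞 K)) (f : Fin r → (𝓞 K)[X])
    (d : Fin r → 𝓞 K) (m : ℕ) : ℤ :=
  ∑ e : Fin r → Fin 3, if ∑ j, (e j : ℕ) = i then
    ∏ j, (if e j = 0 then 1 else if e j = 1 then traceH1 v (f j) (d j) m else (nm v : ℤ) ^ m) else 0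

theorem traceH_eq (i : ℕ) {r : ℕ} (v : HeightOneSpectrum (𝓞 K)) (f : Fin r → (𝓞 K)[X])
    (d : Fin r → 𝓞 K) (m : ℕ) :
    traceH i v f d m = mult0 r i * ((nm v : ℤ) ^ m) ^ (i / 2) +
      ∑ A ∈ idx r i, (mult r i A.card : ℤ) * ((nm v : ℤ) ^ m) ^ ((i - A.card) / 2) *
        ∏ j ∈ A, traceH1 v (f j) (d j) m :=
  kuenneth r i (fun j => traceH1 v (f j) (d j) m) ((nm v : ℤ) ^ m)

/-- the constant of a set of factors -/
noncomputable def bb (i : ℕ) {r : ℕ} (f : Fin r → (𝓞 K)[X]) (A : Finset (Fin r)) : ℝ :=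
  mult r i A.card * ∏ j ∈ A, (((f j).natDegree : ℝ) - 1)

theorem bb_nonneg {i r : ℕ} {f : Fin r → (𝓞 K)[X]} (h3 : ∀ j, 3 ≤ (f j).natDegree)
    (A : Finset (Fin r)) : 0 ≤ bb i f A := by
  unfold bb
  refine mul_nonneg (Nat.cast_nonneg _) (Finset.prod_nonneg fun j _ => ?_)
  have h1 : (3 : ℝ) ≤ (f j).natDegree := by exact_mod_cast h3 j
  linarith

theorem bb_pos {i r : ℕ} {f : Fin r → (𝓞 K)[X]} (h3 : ∀ j, 3 ≤ (f j).natDegree)
    {A : Finset (Fin r)} (hA : A ∈ idx r i) : 0 < bb i f A := by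
  unfold bb
  refine mul_pos (Nat.cast_pos.2 (mult_pos hA)) (Finset.prod_pos fun j _ => ?_)
  have h1 : (3 : ℝ) ≤ (f j).natDegree := by exact_mod_cast h3 j
  linarith

theorem prod_bd {r : ℕ} {f : Fin r → (𝓞 K)[X]} (A : Finset (Fin r)) (x : Fin r → ℝ) {q : ℝ}
    (hx : ∀ j ∈ A, |x j| ≤ ((f j).natDegree - 1) * Real.sqrt q) :
    |∏ j ∈ A, x j| ≤ (∏ j ∈ A, (((f j).natDegree : ℝ) - 1)) * Real.sqrt q ^ A.card := by
  rw [Finset.abs_prod, ← Finset.prod_const, ← Finset.prod_mul_distrib]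
  exact Finset.prod_le_prod (fun j _ => abs_nonneg _) hx

theorem sqrt_pow_even {q : ℝ} (hq : 0 ≤ q) {n : ℕ} (hn : Even n) : q ^ (n / 2) = Real.sqrt q ^ n := by
  obtain ⟨c, hc⟩ := hn
  have h1 : n / 2 = c := by omega
  rw [h1, hc, ← two_mul, pow_mul, Real.sq_sqrt hq]

theorem idx_mem {r i : ℕ} {A : Finset (Fin r)} (hA : A ∈ idx r i) :
    A.Nonempty ∧ A.card ≤ i ∧ Even (i - A.card) := by
  unfold idx at hA
  rw [Finset.mem_filter] at hA
  obtain ⟨-, h1, h2, h3, h4⟩ := hA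
  refine ⟨h1, h2, ?_⟩
  obtain ⟨c, hc⟩ := h4
  exact ⟨c - A.card, by omega⟩

/-- all conditions at a good prime -/
def Gd {r : ℕ} (f : Fin r → (𝓞 K)[X]) (d : Fin r → 𝓞 K) (v : HeightOneSpectrum (𝓞 K)) : Prop :=
  ∀ j, (2 : 𝓞 K) ∉ v.asIdeal ∧ d j ∉ v.asIdeal ∧ (f j).leadingCoeff ∉ v.asIdeal

theorem traceH_bound {i r : ℕ} {f : Fin r → (𝓞 K)[X]} (hodd : ∀ j, Odd (f j).natDegree)
    {d : Fin r → 𝓞 K} {v : HeightOneSpectrum (𝓞 K)}
    (hg : Gd f d v) (m : ℕ) (hm : m ≠ 0) :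
    |(traceH i v f d m : ℝ)| ≤ (mult0 r i + ∑ A ∈ idx r i, bb i f A) *
      Real.sqrt ((nm v : ℝ) ^ m) ^ i := by
  rw [traceH_eq]
  push_cast
  have hq : (0 : ℝ) ≤ (nm v : ℝ) ^ m := by positivity
  refine (abs_add_le _ _).trans ?_
  rw [add_mul, Finset.sum_mul]
  refine add_le_add ?_ ((Finset.abs_sum_le_sum_abs _ _).trans (Finset.sum_le_sum fun A hA => ?_))
  · rw [abs_of_nonneg (by positivity)]
    by_cases hi : Even i
    · rw [sqrt_pow_even hq hi]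
    · unfold mult0
      rw [if_neg hi]
      simp
  · obtain ⟨-, h2, h3⟩ := idx_mem hA
    have h1 := prod_bd A (fun j => (traceH1 v (f j) (d j) m : ℝ)) (q := (nm v : ℝ) ^ m)
      (f := f) (fun j _ => traceH1_bound (hodd _) (hg j).1 (hg j).2.2 (hg j).2.1 m hm)
    rw [abs_mul, abs_of_nonneg (by positivity : (0 : ℝ) ≤ (mult r i A.card : ℝ) *
      ((nm v : ℝ) ^ m) ^ ((i - A.card) / 2)), sqrt_pow_even hq h3]
    have h4 : Real.sqrt ((nm v : ℝ) ^ m) ^ i = Real.sqrt ((nm v : ℝ) ^ m) ^ (i - A.card) *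
        Real.sqrt ((nm v : ℝ) ^ m) ^ A.card := by
      rw [← pow_add, Nat.sub_add_cancel h2]
    rw [h4]
    calc (mult r i A.card : ℝ) * Real.sqrt ((nm v : ℝ) ^ m) ^ (i - A.card) *
          |∏ j ∈ A, (traceH1 v (f j) (d j) m : ℝ)|
        ≤ (mult r i A.card : ℝ) * Real.sqrt ((nm v : ℝ) ^ m) ^ (i - A.card) *
          ((∏ j ∈ A, (((f j).natDegree : ℝ) - 1)) * Real.sqrt ((nm v : ℝ) ^ m) ^ A.card) :=
          mul_le_mul_of_nonneg_left h1 (by positivity)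
      _ = _ := by
          unfold bb
          ring

open Classical in
/-- the untwisted coefficients -/
noncomputable def tt (i : ℕ) {r : ℕ} (f : Fin r → (𝓞 K)[X]) (A : Finset (Fin r))
    (v : HeightOneSpectrum (𝓞 K)) : ℂ :=
  if ∀ j ∈ A, (2 : 𝓞 K) ∉ v.asIdeal ∧ (f j).leadingCoeff ∉ v.asIdeal
    then (((mult r i A.card * (∏ j ∈ A, -(Sv (f j) v : ℝ)) *
      (Real.sqrt (nm v) ^ A.card)⁻¹ : ℝ)) : ℂ) else 0

/-- the characters -/
noncomputable def ww {r : ℕ} (d : Fin r → 𝓞 K) (τ : ℝ) (A : Finset (Fin r))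
    (v : HeightOneSpectrum (𝓞 K)) : ℂ :=
  (chi (∏ j ∈ A, d j) v : ℂ) * ((nm v : ℕ) : ℂ) ^ ((τ : ℂ) * I)

theorem sqrt_nm_pos (v : HeightOneSpectrum (𝓞 K)) : 0 < Real.sqrt (nm v) :=
  Real.sqrt_pos.2 (nm_pos' v)

theorem norm_tt {i r : ℕ} {f : Fin r → (𝓞 K)[X]} (hodd : ∀ j, Odd (f j).natDegree)
    (h3 : ∀ j, 3 ≤ (f j).natDegree) (A : Finset (Fin r)) (v : HeightOneSpectrum (𝓞 K)) :
    ‖tt i f A v‖ ≤ bb i f A := by
  unfold tt
  split_ifs with h
  · have h1 := prod_bd A (fun j => -(Sv (f j) v : ℝ)) (q := (nm v : ℝ)) (f := f) (fun j hj => by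
      rw [abs_neg]
      exact Sv_bound (hodd _) (h j hj).1 (h j hj).2)
    rw [Complex.norm_real, Real.norm_eq_abs, abs_mul, abs_mul, abs_of_nonneg
      (Nat.cast_nonneg (mult r i A.card)), abs_of_nonneg (by positivity : (0 : ℝ) ≤
        (Real.sqrt (nm v) ^ A.card)⁻¹), ← div_eq_mul_inv,
      div_le_iff₀ (pow_pos (sqrt_nm_pos v) _)]
    unfold bb
    rw [mul_assoc]
    exact mul_le_mul_of_nonneg_left h1 (Nat.cast_nonneg _)
  · rw [norm_zero]
    exact bb_nonneg h3 A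

theorem norm_ww {r : ℕ} (d : Fin r → 𝓞 K) (τ : ℝ) (A : Finset (Fin r))
    (v : HeightOneSpectrum (𝓞 K)) : ‖ww d τ A v‖ ≤ 1 := by
  unfold ww
  rw [norm_mul, Complex.norm_intCast]
  have : ‖((nm v : ℕ) : ℂ) ^ ((τ : ℂ) * I)‖ = 1 := (sysK K).norm_cpow_I v τ
  rw [this, mul_one]
  exact chi_abs _ v

theorem ww_orth {r : ℕ} {d e : Fin r → 𝓞 K} (hd : ∀ i, d i ≠ 0) (he : ∀ i, e i ≠ 0) {τ σ : ℝ}
    (A : Finset (Fin r))
    (h : IsSquare ((∏ j ∈ A, (d j * e j) : 𝓞 K) : K) → τ ≠ σ) :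
    (sysK K).Negl fun v => (ww d τ A v * conj (ww e σ A v)).re := by
  have hne : (∏ j ∈ A, d j) * (∏ j ∈ A, e j) ≠ 0 :=
    mul_ne_zero (Finset.prod_ne_zero_iff.2 fun j _ => hd j)
      (Finset.prod_ne_zero_iff.2 fun j _ => he j)
  have h1 : ¬ IsSquare (((∏ j ∈ A, d j) * (∏ j ∈ A, e j) : 𝓞 K) : K) ∨ σ - τ ≠ 0 := by
    by_cases h2 : IsSquare (((∏ j ∈ A, d j) * (∏ j ∈ A, e j) : 𝓞 K) : K)
    · rw [← Finset.prod_mul_distrib] at h2
      exact Or.inr (sub_ne_zero.2 (h h2).symm)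
    · exact Or.inl h2
  have h3 := negl_chi hne (σ - τ) h1
  have h4 : ∀ v : HeightOneSpectrum (𝓞 K), (ww d τ A v * conj (ww e σ A v)).re =
      (chi ((∏ j ∈ A, d j) * (∏ j ∈ A, e j)) v : ℝ) *
        (((nm v : ℕ) : ℂ) ^ (-(((σ - τ : ℝ) : ℂ) * I))).re := by
    intro v
    unfold ww
    rw [conj_w, orth_eq, Complex.re_ofReal_mul]
  intro η hη
  filter_upwards [h3 η hη] with ε h5
  have h6 : (sysK K).E ε (fun v => (ww d τ A v * conj (ww e σ A v)).re) =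
      (sysK K).E ε (fun v => (chi ((∏ j ∈ A, d j) * (∏ j ∈ A, e j)) v : ℝ) *
        (((nm v : ℕ) : ℂ) ^ (-(((σ - τ : ℝ) : ℂ) * I))).re) :=
    congrArg ((sysK K).E ε) (funext h4)
  rw [h6]
  exact h5

open Classical in
/-- the normalized coefficients -/
noncomputable def aa (i : ℕ) {r : ℕ} (f : Fin r → (𝓞 K)[X]) (d : Fin r → 𝓞 K)
    (S : Finset (HeightOneSpectrum (𝓞 K))) (τ : ℝ) (v : HeightOneSpectrum (𝓞 K)) : ℂ :=
  if v ∉ S then (((traceH i v f d 1 : ℝ) * (Real.sqrt (nm v) ^ i)⁻¹ : ℝ) : ℂ) *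
    ((nm v : ℕ) : ℂ) ^ (-((τ : ℂ) * I)) else 0

theorem norm_aa {i r : ℕ} {f : Fin r → (𝓞 K)[X]} (hodd : ∀ j, Odd (f j).natDegree)
    (h3 : ∀ j, 3 ≤ (f j).natDegree) {d : Fin r → 𝓞 K} {S : Finset (HeightOneSpectrum (𝓞 K))}
    (hS : ∀ v, v ∉ S → Gd f d v) (τ : ℝ) (v : HeightOneSpectrum (𝓞 K)) :
    ‖aa i f d S τ v‖ ≤ mult0 r i + ∑ A ∈ idx r i, bb i f A := by
  have hb : 0 ≤ ∑ A ∈ idx r i, bb i f A := Finset.sum_nonneg fun A _ => bb_nonneg h3 A
  unfold aa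
  by_cases h : v ∉ S
  · rw [if_pos h]
    have h1 := traceH_bound (i := i) hodd (hS v h) 1 one_ne_zero
    rw [pow_one] at h1
    rw [norm_mul, norm_cpow_neg, mul_one, Complex.norm_real, Real.norm_eq_abs, abs_mul,
      abs_of_nonneg (by positivity : (0 : ℝ) ≤ (Real.sqrt (nm v) ^ i)⁻¹), ← div_eq_mul_inv,
      div_le_iff₀ (pow_pos (sqrt_nm_pos v) _)]
    exact h1
  · rw [if_neg h, norm_zero]
    positivity

theorem chi_prod {r : ℕ} (d : Fin r → 𝓞 K) (A : Finset (Fin r)) (v : HeightOneSpectrum (𝓞 K)) :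
    chi (∏ j ∈ A, d j) v = ∏ j ∈ A, chi (d j) v := by
  unfold chi
  rw [map_prod, map_prod]

theorem aa_eq {i r : ℕ} {f : Fin r → (𝓞 K)[X]} {d : Fin r → 𝓞 K}
    {S : Finset (HeightOneSpectrum (𝓞 K))} (hS : ∀ v, v ∉ S → Gd f d v) (τ : ℝ)
    {v : HeightOneSpectrum (𝓞 K)} (hv : v ∉ S) :
    (aa i f d S τ v).re = mult0 r i * (((nm v : ℕ) : ℂ) ^ (-((τ : ℂ) * I))).re +
      ∑ A ∈ idx r i, (tt i f A v * conj (ww d τ A v)).re := by
  have hg := hS v hv
  have hs := sqrt_nm_pos v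
  have hq := (nm_pos' v).le
  have hreal : (traceH i v f d 1 : ℝ) * (Real.sqrt (nm v) ^ i)⁻¹ = mult0 r i +
      ∑ A ∈ idx r i, (mult r i A.card * (∏ j ∈ A, -(Sv (f j) v : ℝ)) *
      (Real.sqrt (nm v) ^ A.card)⁻¹) * (chi (∏ j ∈ A, d j) v : ℝ) := by
    rw [traceH_eq]
    push_cast
    rw [pow_one, add_mul, Finset.sum_mul]
    congr 1
    · by_cases hi : Even i
      · rw [sqrt_pow_even hq hi, mul_assoc, mul_inv_cancel₀ (pow_pos hs _).ne', mul_one]
      · unfold mult0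
        rw [if_neg hi]
        simp
    · refine Finset.sum_congr rfl fun A hA => ?_
      obtain ⟨-, h2, h3⟩ := idx_mem hA
      rw [sqrt_pow_even hq h3]
      have h4 : Real.sqrt (nm v) ^ i = Real.sqrt (nm v) ^ (i - A.card) *
          Real.sqrt (nm v) ^ A.card := by
        rw [← pow_add, Nat.sub_add_cancel h2]
      have h5 : ∏ j ∈ A, (traceH1 v (f j) (d j) 1 : ℝ) =
          (∏ j ∈ A, -(Sv (f j) v : ℝ)) * (chi (∏ j ∈ A, d j) v : ℝ) := by
        rw [chi_prod, Int.cast_prod, ← Finset.prod_mul_distrib]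
        refine Finset.prod_congr rfl fun j _ => ?_
        rw [traceH1_one (hg j).1 (hg j).2.1]
        push_cast
        ring
      rw [h4, h5, mul_inv]
      have h6 := (pow_pos hs (i - A.card)).ne'
      field_simp
  have h1 : aa i f d S τ v = mult0 r i * ((nm v : ℕ) : ℂ) ^ (-((τ : ℂ) * I)) +
      ∑ A ∈ idx r i, tt i f A v * conj (ww d τ A v) := by
    unfold aa
    rw [if_pos hv, hreal, Complex.ofReal_add, add_mul, Complex.ofReal_sum, Finset.sum_mul]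
    congr 1
    refine Finset.sum_congr rfl fun A _ => ?_
    unfold tt ww
    rw [if_pos fun j _ => ⟨(hg j).1, (hg j).2.2⟩, conj_w]
    push_cast
    ring
  rw [h1, Complex.add_re, Complex.re_sum]
  congr 1
  have : (mult0 r i : ℂ) = ((mult0 r i : ℝ) : ℂ) := by push_cast; rfl
  rw [this, Complex.re_ofReal_mul]

/-- the mean of the coefficients -/
theorem mean_aa {i r : ℕ} {f : Fin r → (𝓞 K)[X]} (hodd : ∀ j, Odd (f j).natDegree)
    (h3 : ∀ j, 3 ≤ (f j).natDegree) {d : Fin r → 𝓞 K} {S : Finset (HeightOneSpectrum (𝓞 K))}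
    (hS : ∀ v, v ∉ S → Gd f d v) (τ : ℝ) {η : ℝ} (hη : 0 < η) :
    ∀ᶠ ε : ℝ in 𝓝[>] 0, |(sysK K).E ε (fun v => (aa i f d S τ v).re) -
      (if τ = 0 then (mult0 r i : ℝ) else 0) * (sysK K).lam ε -
      ∑ A ∈ idx r i, (sysK K).E ε fun v => (tt i f A v * conj (ww d τ A v)).re| ≤
        η * (sysK K).lam ε := by
  classical
  set M : ℝ := (mult0 r i : ℝ) with hM
  have hM0 : 0 ≤ M := Nat.cast_nonneg _
  set Bt := ∑ A ∈ idx r i, bb i f A with hBt
  have hb : 0 ≤ Bt := Finset.sum_nonneg fun A _ => bb_nonneg h3 A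
  have hb1 : ∀ A v, |(tt i f A v * conj (ww d τ A v)).re| ≤ bb i f A := fun p v => by
    refine (Complex.abs_re_le_norm _).trans ?_
    rw [norm_mul, Complex.norm_conj]
    exact (mul_le_of_le_one_right (norm_nonneg _) (norm_ww _ _ p v)).trans
      (norm_tt hodd h3 p v)
  have hb2 : ∀ v : HeightOneSpectrum (𝓞 K), |(((nm v : ℕ) : ℂ) ^ (-((τ : ℂ) * I))).re| ≤ 1 :=
    fun v => (Complex.abs_re_le_norm _).trans (norm_cpow_neg v τ).le
  have hb3 : ∀ v, |(aa i f d S τ v).re| ≤ M + Bt := fun v =>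
    (Complex.abs_re_le_norm _).trans (norm_aa hodd h3 hS τ v)
  have hmean : ∀ᶠ ε : ℝ in 𝓝[>] 0,
      |M * (sysK K).E ε (fun v => (((nm v : ℕ) : ℂ) ^ (-((τ : ℂ) * I))).re) -
        (if τ = 0 then M else 0) * (sysK K).lam ε| ≤ η / 2 * (sysK K).lam ε := by
    by_cases hτ : τ = 0
    · filter_upwards [(sysK K).lam_tendsto.eventually_gt_atTop 0] with ε h1
      have e1 : (sysK K).E ε (fun v => (((nm v : ℕ) : ℂ) ^ (-((τ : ℂ) * I))).re) =
          (sysK K).lam ε := by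
        unfold NormSys.E NormSys.lam
        refine tsum_congr fun v => ?_
        rw [hτ]
        simp
      rw [e1, if_pos hτ, sub_self, abs_zero]
      positivity
    · have h1 := negl_chi (K := K) (d := 1) one_ne_zero τ (Or.inr hτ) (η / 2 / (M + 1))
        (by positivity)
      filter_upwards [h1, (sysK K).lam_tendsto.eventually_gt_atTop 0] with ε h2 h3
      have e1 : ∀ v : HeightOneSpectrum (𝓞 K), (chi (1 : 𝓞 K) v : ℝ) *
          (((nm v : ℕ) : ℂ) ^ (-((τ : ℂ) * I))).re =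
          (((nm v : ℕ) : ℂ) ^ (-((τ : ℂ) * I))).re := by
        intro v
        have : chi (1 : 𝓞 K) v = 1 := by
          unfold chi
          rw [map_one, map_one]
        rw [this]
        simp
      have e2 : (sysK K).E ε (fun v => (chi (1 : 𝓞 K) v : ℝ) *
          (((nm v : ℕ) : ℂ) ^ (-((τ : ℂ) * I))).re) =
          (sysK K).E ε (fun v => (((nm v : ℕ) : ℂ) ^ (-((τ : ℂ) * I))).re) :=
        congrArg ((sysK K).E ε) (funext e1)
      have h2' : |(sysK K).E ε (fun v => (((nm v : ℕ) : ℂ) ^ (-((τ : ℂ) * I))).re)| ≤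
          η / 2 / (M + 1) * (sysK K).lam ε := by
        rw [← e2]
        exact h2
      rw [if_neg hτ, zero_mul, sub_zero, abs_mul, abs_of_nonneg hM0]
      calc M * |(sysK K).E ε (fun v => (((nm v : ℕ) : ℂ) ^ (-((τ : ℂ) * I))).re)|
          ≤ M * (η / 2 / (M + 1) * (sysK K).lam ε) :=
            mul_le_mul_of_nonneg_left h2' hM0
        _ = (M / (M + 1)) * (η / 2 * (sysK K).lam ε) := by ring
        _ ≤ 1 * (η / 2 * (sysK K).lam ε) := by
            refine mul_le_mul_of_nonneg_right ?_ (by positivity)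
            rw [div_le_one (by positivity)]
            linarith
        _ = η / 2 * (sysK K).lam ε := one_mul _
  filter_upwards [hmean, self_mem_nhdsWithin,
    (sysK K).lam_tendsto.eventually_ge_atTop
      (2 / η * (S.card * ((M + Bt) + (|M| * 1 + Bt))))] with ε h1 h2 h4
  have hε : (0 : ℝ) < ε := h2
  have hE := mean_diff (sysK K) (idx r i) S (fun v => (aa i f d S τ v).re)
    (fun v => (((nm v : ℕ) : ℂ) ^ (-((τ : ℂ) * I))).re)
    (fun A v => (tt i f A v * conj (ww d τ A v)).re) M (M + Bt) 1 (bb i f) hb3 hb2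
    (fun p _ v => hb1 p v) (fun v hv => aa_eq hS τ hv) hε
  have e2 : (S.card : ℝ) * ((M + Bt) + (|M| * 1 + Bt)) ≤ η / 2 * (sysK K).lam ε := by
    have := mul_le_mul_of_nonneg_left h4 (by positivity : 0 ≤ η / 2)
    have e3 : η / 2 * (2 / η * (S.card * ((M + Bt) + (|M| * 1 + Bt)))) =
        (S.card : ℝ) * ((M + Bt) + (|M| * 1 + Bt)) := by
      field_simp
    rwa [e3] at this
  have e4 := hE.trans e2
  have e5 : ∀ x y z w l : ℝ, |x - y - z| ≤ η / 2 * l → |y - w| ≤ η / 2 * l →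
      |x - w - z| ≤ η * l := by
    intro x y z w l h5 h6
    have e6 : x - w - z = (x - y - z) + (y - w) := by ring
    rw [e6]
    refine (abs_add_le _ _).trans ?_
    linarith
  exact e5 _ _ _ _ _ e4 h1

end Pool.Agent.H126U
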